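import Pool.Agent.Q77.BT.Base

/-! Project BT, job WALK: walking in the plane, density at all scales. -/

set_option autoImplicit false

open MeasureTheory Set Metric Filter Topology
open scoped NNReal

noncomputable section

namespace Pool.Agent.Q216.BT

open Pool.Agent.Q77.BT

theorem walk_step (hs : S_SYM) (ha : S_ANG) {m n : ℕ} {M : Set (E n)} {δ s : ℝ} (hδ : 0 < δ)
    (hδ1 : δ ≤ 1 / 10 ^ 6) (hs0 : 0 < s)
    (H : ∀ x ∈ M, ∃ ι : Fr m n, Fl M x (s / 2) δ ι ∧ De M x (s / 2) (1 / 1000) ι)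
    {x : E n} {ι : Fr m n} (hfl : Fl M x s δ ι) {p p' : E m} (hp : ‖p‖ ≤ 3 / 5 * s)
    (hpp : ‖p' - p‖ ≤ s / 40) {z : E n} (hz : z ∈ M) (hzp : ‖z - x - ι p‖ ≤ 1 / 1000 * s) :
    ∃ z' ∈ M, ‖z' - x - ι p'‖ ≤ 1 / 1000 * s := by
  obtain ⟨κ, hκ1, hκ2⟩ := H z hz
  have hzx : dist z x ≤ 7 / 10 * s := by
    rw [dist_eq_norm]
    calc ‖z - x‖ = ‖(z - x - ι p) + ι p‖ := by rw [sub_add_cancel]
      _ ≤ ‖z - x - ι p‖ + ‖ι p‖ := norm_add_le _ _
      _ ≤ 1 / 1000 * s + 3 / 5 * s := by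
          rw [LinearIsometry.norm_map]
          exact add_le_add hzp hp
      _ ≤ 7 / 10 * s := by nlinarith
  obtain ⟨v, hv⟩ : ∃ v : E n, v = x + ι p' - z := ⟨_, rfl⟩
  have hvn : ‖v‖ ≤ s / 20 := by
    have h1 : v = ι (p' - p) - (z - x - ι p) := by
      rw [hv, map_sub]; abel
    rw [h1]
    calc ‖ι (p' - p) - (z - x - ι p)‖ ≤ ‖ι (p' - p)‖ + ‖z - x - ι p‖ := norm_sub_le _ _
      _ ≤ s / 40 + 1 / 1000 * s := by
          rw [LinearIsometry.norm_map]
          exact add_le_add hpp hzp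
      _ ≤ s / 20 := by nlinarith
  obtain ⟨z', hz', hzz⟩ := hκ2 (ad κ v) ((norm_ad_le κ v).trans (by linarith))
  refine ⟨z', hz', ?_⟩
  -- the angle
  have hoz : ‖off ι (z - x)‖ ≤ δ * s := hfl z hz (hzx.trans (by nlinarith))
  have hang := ha m n M z (s / 2) (1 / 1000) δ (4 * δ) ι κ (by positivity) (by norm_num)
    (by norm_num) hκ2 hκ1 (by
      intro w hw hwz
      have h1 : dist w x ≤ s := by
        calc dist w x ≤ dist w z + dist z x := dist_triangle _ _ _
          _ ≤ s / 2 / 5 + 7 / 10 * s := add_le_add hwz hzx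
          _ ≤ s := by nlinarith
      have h2 := hfl w hw h1
      have h3 : w - z = (w - x) - (z - x) := by abel
      rw [h3, map_sub]
      calc ‖off ι (w - x) - off ι (z - x)‖ ≤ ‖off ι (w - x)‖ + ‖off ι (z - x)‖ := norm_sub_le _ _
        _ ≤ δ * s + δ * s := add_le_add h2 hoz
        _ = 4 * δ * (s / 2) := by ring)
  have hsym := hs m n ι κ (20 * (4 * δ + δ)) (by positivity) (by nlinarith) hang
  have h1 : ‖off κ v‖ ≤ 2 * (20 * (4 * δ + δ)) * (s / 20) + δ * s := by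
    have h2 : v = ι (ad ι v) + off ι v := (decomp ι v).symm
    have h3 : off κ v = off κ (ι (ad ι v)) + off κ (off ι v) := by
      rw [← map_add, decomp]
    have h4 : off ι v = - off ι (z - x) := by
      have h5 : v = ι p' - (z - x) := by rw [hv]; abel
      rw [h5, map_sub, off_map, zero_sub]
    rw [h3]
    refine (norm_add_le _ _).trans (add_le_add ?_ ?_)
    · refine (hsym _).trans ?_
      refine mul_le_mul_of_nonneg_left ((norm_ad_le ι v).trans hvn) (by positivity)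
    · refine (norm_off_le κ _).trans ?_
      rw [h4, norm_neg]
      exact hoz
  have h2 : z' - x - ι p' = (z' - z - κ (ad κ v)) - off κ v := by
    have h3 : κ (ad κ v) + off κ v = v := decomp κ v
    have h4 : z' - z - κ (ad κ v) - off κ v = z' - z - (κ (ad κ v) + off κ v) := by abel
    rw [h4, h3, hv]
    abel
  rw [h2]
  calc ‖(z' - z - κ (ad κ v)) - off κ v‖ ≤ ‖z' - z - κ (ad κ v)‖ + ‖off κ v‖ := norm_sub_le _ _
    _ ≤ 1 / 1000 * (s / 2) + (2 * (20 * (4 * δ + δ)) * (s / 20) + δ * s) := add_le_add hzz h1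
    _ ≤ 1 / 1000 * s := by
        have h5 : δ * s ≤ 1 / 10 ^ 6 * s := mul_le_mul_of_nonneg_right hδ1 hs0.le
        nlinarith

theorem walk (hs : S_SYM) (ha : S_ANG) : S_WALK := by
  intro m n M δ s hδ hδ1 hs0 H x hx ι hfl p hp
  have key : ∀ j : ℕ, j ≤ 24 → ∃ z ∈ M, ‖z - x - ι (((j : ℝ) / 24) • p)‖ ≤ 1 / 1000 * s := by
    intro j
    induction j with
    | zero =>
      intro _
      refine ⟨x, hx, ?_⟩
      rw [Nat.cast_zero, zero_div, zero_smul, map_zero, sub_self, sub_self, norm_zero]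
      positivity
    | succ j ih =>
      intro hj
      obtain ⟨z, hz, hzp⟩ := ih (by omega)
      have hj24 : (j : ℝ) ≤ 24 := by exact_mod_cast (by omega : j ≤ 24)
      refine walk_step hs ha hδ hδ1 hs0 H hfl (p := ((j : ℝ) / 24) • p) ?_ ?_ hz hzp
      · rw [norm_smul, Real.norm_of_nonneg (by positivity)]
        calc (j : ℝ) / 24 * ‖p‖ ≤ 1 * ‖p‖ := by
              refine mul_le_mul_of_nonneg_right ?_ (norm_nonneg _)
              rw [div_le_one (by norm_num)]
              exact hj24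
          _ ≤ 3 / 5 * s := by rw [one_mul]; exact hp
      · rw [← sub_smul, norm_smul]
        have h1 : (((j + 1 : ℕ) : ℝ) / 24 - (j : ℝ) / 24) = 1 / 24 := by
          push_cast; ring
        rw [h1, Real.norm_of_nonneg (by norm_num)]
        nlinarith
  obtain ⟨z, hz, hzp⟩ := key 24 le_rfl
  refine ⟨z, hz, ?_⟩
  have h1 : (((24 : ℕ) : ℝ) / 24) • p = p := by
    rw [Nat.cast_ofNat, div_self (by norm_num), one_smul]
  rwa [h1] at hzp

theorem gd (hw : S_WALK) : S_GD := by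
  intro m n M δ R t1 hδ hδ1 ht1 hLA hloc
  have key : ∀ k : ℕ, ∀ s : ℝ, 0 < s → s < R → s / 2 ≤ 2 ^ k * t1 → ∀ x ∈ M, ∀ ι : Fr m n,
      Fl M x s δ ι → ∀ p : E m, ‖p‖ ≤ 3 / 5 * s → ∃ z ∈ M, ‖z - x - ι p‖ ≤ 1 / 1000 * s := by
    intro k
    induction k with
    | zero =>
      intro s hs0 hsR hst
      rw [pow_zero, one_mul] at hst
      refine hw m n M δ s hδ hδ1 hs0 fun x hx => ?_
      obtain ⟨ι, hι⟩ := hLA x hx (s / 2) (by positivity) (by linarith)
      refine ⟨ι, hι, fun p hp => ?_⟩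
      obtain ⟨z, hz, h1⟩ := hloc x hx (s / 2) (by positivity) hst ι hι p hp
      refine ⟨z, hz, h1.trans ?_⟩
      refine mul_le_mul_of_nonneg_right ?_ (by positivity)
      calc 4 * δ ≤ 4 * (1 / 10 ^ 6) := by linarith
        _ ≤ 1 / 1000 := by norm_num
    | succ k ih =>
      intro s hs0 hsR hst
      refine hw m n M δ s hδ hδ1 hs0 fun x hx => ?_
      obtain ⟨ι, hι⟩ := hLA x hx (s / 2) (by positivity) (by linarith)
      refine ⟨ι, hι, fun p hp => ?_⟩
      refine ih (s / 2) (by positivity) (by linarith) ?_ x hx ι hι p (hp.trans ?_)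
      · rw [pow_succ] at hst
        linarith
      · linarith
  intro x hx s hs0 hsR
  obtain ⟨k, hk⟩ := pow_unbounded_of_one_lt (s / 2 / t1) (one_lt_two (α := ℝ))
  refine key k s hs0 hsR ?_ x hx
  rw [div_lt_iff₀ ht1] at hk
  exact hk.le

end Pool.Agent.Q216.BT
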