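import Pool.Agent.Q77.BT.Base

/-! Project BT, job WALL: a small perturbation without zeros on all walls. -/

set_option autoImplicit false

open MeasureTheory Set Metric Filter Topology
open scoped NNReal

noncomputable section

namespace Pool.Agent.Q216.BT

open Pool.Agent.Q77.BT

theorem exists_bump (n : ℕ) : ∃ (χ : E n → ℝ) (K : ℝ≥0), ContDiff ℝ 1 χ ∧ LipschitzWith K χ ∧
    (∀ z, 0 ≤ χ z) ∧ (∀ z, χ z ≤ 1) ∧ (∀ z, ‖z‖ ≤ 2 → χ z = 1) ∧ ∀ z, 3 ≤ ‖z‖ → χ z = 0 := by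
  let f : ContDiffBump (0 : E n) := ⟨2, 3, by norm_num, by norm_num⟩
  have h1 : ContDiff ℝ 1 (f : E n → ℝ) := f.contDiff
  obtain ⟨K, hK⟩ := h1.lipschitzWith_of_hasCompactSupport f.hasCompactSupport (by norm_num)
  refine ⟨f, K, h1, hK, fun z => f.nonneg, fun z => f.le_one, fun z hz => ?_, fun z hz => ?_⟩
  · apply f.one_of_mem_closedBall
    rw [mem_closedBall_zero_iff]
    exact hz
  · apply f.zero_of_le_dist
    rw [dist_zero_right]
    exact hz

/-- sums with disjoint supports -/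
theorem sum_le {n : ℕ} {I : Type} {J : Finset I} {x : I → E n} {χ : E n → ℝ}
    (h3 : ∀ z, 3 ≤ ‖z‖ → χ z = 0) (hx : ∀ i ∈ J, ∀ j ∈ J, i ≠ j → 8 ≤ dist (x i) (x j))
    (z : E n) : (J.filter fun i => χ (z - x i) ≠ 0).card ≤ 1 := by
  rw [Finset.card_le_one]
  intro i hi j hj
  rw [Finset.mem_filter] at hi hj
  by_contra hij
  have h8 := hx i hi.1 j hj.1 hij
  have hi3 : ‖z - x i‖ < 3 := by
    by_contra h
    exact hi.2 (h3 _ (not_lt.1 h))
  have hj3 : ‖z - x j‖ < 3 := by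
    by_contra h
    exact hj.2 (h3 _ (not_lt.1 h))
  have : dist (x i) (x j) ≤ ‖z - x i‖ + ‖z - x j‖ := by
    rw [← dist_eq_norm, ← dist_eq_norm]
    exact dist_triangle_left _ _ _
  linarith

theorem wall_mono {m n : ℕ} {ι : Fr m n} {x : E n} {δ δ' : ℝ} (h : δ ≤ δ') :
    Wall ι x δ ⊆ Wall ι x δ' := fun _ hz => ⟨hz.1.trans h, hz.2.trans h⟩

theorem wall_norm {m n : ℕ} {ι : Fr m n} {x : E n} {δ : ℝ} (h : δ ≤ 1 / 2) {z : E n}
    (hz : z ∈ Wall ι x δ) : ‖z - x‖ ≤ 2 := by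
  have h1 := norm_le_add ι (z - x)
  have h2 := (abs_le.1 hz.1).2
  have h3 := hz.2
  linarith

/-- the induction -/
def PP (m n N j : ℕ) : Prop := ∃ (κ δ1 : ℝ) (Λ : ℝ≥0), 0 < κ ∧ κ ≤ 1 ∧ 0 < δ1 ∧
  ∀ (I : Type) [Finite I] (col : I → Fin N) (x : I → E n) (ι : I → Fr m n),
  (∀ i j, i ≠ j → col i = col j → 8 ≤ dist (x i) (x j)) →
  ∀ G : E n → E m, ContDiff ℝ 1 G → LipschitzWith 1 G →
  ∃ G' : E n → E m, ContDiff ℝ 1 G' ∧ LipschitzWith Λ G' ∧
    (∀ z, ‖G' z - G z‖ ≤ 1 - (1 / 2) ^ j) ∧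
    ∀ i, (col i).val < j → ∀ z ∈ Wall (ι i) (x i) δ1, κ ≤ ‖G' z‖

theorem pp_step (hv : S_VEC) {m n N : ℕ} (hm : 1 ≤ m) (j : ℕ) (hj : PP m n N j) :
    PP m n N (j + 1) := by
  obtain ⟨κ, δ1, Λ, hκ, hκ1, hδ1, H⟩ := hj
  obtain ⟨χ, K, hχ1, hχ2, hχ3, hχ4, hχ5, hχ6⟩ := exists_bump n
  have hpow : (0 : ℝ) < (1 / 2) ^ (j + 1) := by positivity
  obtain ⟨a, ha⟩ : ∃ a : ℝ, a = min (κ / 2) ((1 / 2) ^ (j + 1)) := ⟨_, rfl⟩
  have ha0 : 0 < a := by rw [ha]; exact lt_min (by linarith) hpow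
  have ha1 : a ≤ κ / 2 := by rw [ha]; exact min_le_left _ _
  have ha2 : a ≤ (1 / 2) ^ (j + 1) := by rw [ha]; exact min_le_right _ _
  obtain ⟨b, δ2, hb, hδ2, V⟩ := hv m n hm Λ a ha0
  refine ⟨min (κ / 2) (min b 1), min δ1 (min δ2 (1 / 2)), Λ + 2 * K * a.toNNReal,
    lt_min (by linarith) (lt_min hb one_pos), (min_le_right _ _).trans (min_le_right _ _),
    lt_min hδ1 (lt_min hδ2 (by norm_num)), ?_⟩
  intro I hI col x ι hsep G hG hG1
  obtain ⟨G', hG'1, hG'2, hG'3, hG'4⟩ := H I col x ι hsep G hG hG1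
  choose v hv1 hv2 using fun i => V (ι i) (x i) G' hG'2
  classical
  have := Fintype.ofFinite I
  obtain ⟨J, hJ⟩ : ∃ J : Finset I, J = Finset.univ.filter fun i => (col i).val = j := ⟨_, rfl⟩
  have hJs : ∀ i ∈ J, ∀ k ∈ J, i ≠ k → 8 ≤ dist (x i) (x k) := by
    intro i hi k hk hik
    rw [hJ, Finset.mem_filter] at hi hk
    exact hsep i k hik (Fin.ext (hi.2.trans hk.2.symm))
  have hc := sum_le hχ6 hJs
  -- the perturbation
  obtain ⟨S, hS⟩ : ∃ S : E n → E m, S = fun z => ∑ i ∈ J, χ (z - x i) • v i := ⟨_, rfl⟩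
  have hSc : ContDiff ℝ 1 S := by
    rw [hS]
    refine ContDiff.sum fun i _ => ?_
    exact (hχ1.comp (contDiff_id.sub contDiff_const)).smul contDiff_const
  have hSa : ∀ z, ‖S z‖ ≤ a := by
    intro z
    rw [hS]
    have h1 : ∑ i ∈ J, χ (z - x i) • v i =
        ∑ i ∈ J.filter (fun i => χ (z - x i) ≠ 0), χ (z - x i) • v i := by
      symm
      apply Finset.sum_filter_of_ne
      intro i _ hi h0
      exact hi (by rw [h0, zero_smul])
    show ‖∑ i ∈ J, χ (z - x i) • v i‖ ≤ a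
    rw [h1]
    calc ‖∑ i ∈ J.filter (fun i => χ (z - x i) ≠ 0), χ (z - x i) • v i‖
        ≤ ∑ i ∈ J.filter (fun i => χ (z - x i) ≠ 0), ‖χ (z - x i) • v i‖ := norm_sum_le _ _
      _ ≤ ∑ i ∈ J.filter (fun i => χ (z - x i) ≠ 0), a := by
          refine Finset.sum_le_sum fun i _ => ?_
          rw [norm_smul, Real.norm_of_nonneg (hχ3 _)]
          calc χ (z - x i) * ‖v i‖ ≤ 1 * a :=
                mul_le_mul (hχ4 _) (hv1 i) (norm_nonneg _) zero_le_one
            _ = a := one_mul a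
      _ = ((J.filter (fun i => χ (z - x i) ≠ 0)).card : ℝ) * a := by
          rw [Finset.sum_const, nsmul_eq_mul]
      _ ≤ 1 * a := by
          refine mul_le_mul_of_nonneg_right ?_ ha0.le
          exact_mod_cast hc z
      _ = a := one_mul a
  have hSl : ∀ z z' : E n, ‖S z - S z'‖ ≤ 2 * K * a * dist z z' := by
    intro z z'
    rw [hS]
    show ‖∑ i ∈ J, χ (z - x i) • v i - ∑ i ∈ J, χ (z' - x i) • v i‖ ≤ _
    rw [← Finset.sum_sub_distrib]
    have h1 : ∑ i ∈ J, (χ (z - x i) • v i - χ (z' - x i) • v i) =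
        ∑ i ∈ J.filter (fun i => χ (z - x i) ≠ 0) ∪ J.filter (fun i => χ (z' - x i) ≠ 0),
          (χ (z - x i) • v i - χ (z' - x i) • v i) := by
      symm
      apply Finset.sum_subset
      · exact Finset.union_subset (Finset.filter_subset _ _) (Finset.filter_subset _ _)
      · intro i hi hi'
        rw [Finset.mem_union, Finset.mem_filter, Finset.mem_filter] at hi'
        push Not at hi'
        have h2 : χ (z - x i) = 0 := hi'.1 hi
        have h3 : χ (z' - x i) = 0 := hi'.2 hi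
        rw [h2, h3, zero_smul, sub_zero]
    rw [h1]
    have hterm : ∀ i, ‖χ (z - x i) • v i - χ (z' - x i) • v i‖ ≤ K * dist z z' * a := by
      intro i
      rw [← sub_smul, norm_smul]
      refine mul_le_mul ?_ (hv1 i) (norm_nonneg _) (by positivity)
      have h2 := hχ2.dist_le_mul (z - x i) (z' - x i)
      rwa [dist_sub_right, dist_eq_norm (χ _)] at h2
    calc ‖∑ i ∈ J.filter (fun i => χ (z - x i) ≠ 0) ∪ J.filter (fun i => χ (z' - x i) ≠ 0),
          (χ (z - x i) • v i - χ (z' - x i) • v i)‖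
        ≤ ∑ i ∈ J.filter (fun i => χ (z - x i) ≠ 0) ∪ J.filter (fun i => χ (z' - x i) ≠ 0),
          ‖χ (z - x i) • v i - χ (z' - x i) • v i‖ := norm_sum_le _ _
      _ ≤ ∑ i ∈ J.filter (fun i => χ (z - x i) ≠ 0) ∪ J.filter (fun i => χ (z' - x i) ≠ 0),
          (K * dist z z' * a) := Finset.sum_le_sum fun i _ => hterm i
      _ = ((J.filter (fun i => χ (z - x i) ≠ 0) ∪
            J.filter (fun i => χ (z' - x i) ≠ 0)).card : ℝ) * (K * dist z z' * a) := by
          rw [Finset.sum_const, nsmul_eq_mul]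
      _ ≤ 2 * (K * dist z z' * a) := by
          refine mul_le_mul_of_nonneg_right ?_ (by positivity)
          have h2 := (Finset.card_union_le (J.filter (fun i => χ (z - x i) ≠ 0))
            (J.filter (fun i => χ (z' - x i) ≠ 0))).trans (add_le_add (hc z) (hc z'))
          exact_mod_cast h2
      _ = 2 * K * a * dist z z' := by ring
  refine ⟨fun z => G' z - S z, hG'1.sub hSc, ?_, ?_, ?_⟩
  · refine LipschitzWith.of_dist_le_mul fun z z' => ?_
    have h1 := hG'2.dist_le_mul z z'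
    have h2 := hSl z z'
    rw [dist_eq_norm] at h1 ⊢
    calc ‖G' z - S z - (G' z' - S z')‖ = ‖(G' z - G' z') - (S z - S z')‖ := by
          congr 1; abel
      _ ≤ ‖G' z - G' z'‖ + ‖S z - S z'‖ := norm_sub_le _ _
      _ ≤ Λ * dist z z' + 2 * K * a * dist z z' := add_le_add h1 h2
      _ = _ := by
          rw [NNReal.coe_add, NNReal.coe_mul, NNReal.coe_mul, Real.coe_toNNReal a ha0.le,
            NNReal.coe_ofNat]
          ring
  · intro z
    have h1 := hG'3 z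
    have h2 := hSa z
    calc ‖G' z - S z - G z‖ = ‖(G' z - G z) - S z‖ := by congr 1; abel
      _ ≤ ‖G' z - G z‖ + ‖S z‖ := norm_sub_le _ _
      _ ≤ (1 - (1 / 2) ^ j) + (1 / 2) ^ (j + 1) := add_le_add h1 (h2.trans ha2)
      _ = 1 - (1 / 2) ^ (j + 1) := by rw [pow_succ]; ring
  · intro i hi z hz
    rcases Nat.lt_succ_iff_lt_or_eq.1 hi with hlt | heq
    · have h1 := hG'4 i hlt z (wall_mono (min_le_left _ _) hz)
      have h2 := hSa z
      have h3 : ‖G' z‖ ≤ ‖G' z - S z‖ + ‖S z‖ := by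
        calc ‖G' z‖ = ‖(G' z - S z) + S z‖ := by rw [sub_add_cancel]
          _ ≤ _ := norm_add_le _ _
      calc min (κ / 2) (min b 1) ≤ κ / 2 := min_le_left _ _
        _ ≤ ‖G' z - S z‖ := by linarith
    · have hzn : ‖z - x i‖ ≤ 2 := wall_norm le_rfl
        (wall_mono ((min_le_right _ _).trans (min_le_right _ _)) hz)
      have hiJ : i ∈ J := by
        rw [hJ, Finset.mem_filter]
        exact ⟨Finset.mem_univ _, heq⟩
      have hSz : S z = v i := by
        rw [hS]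
        show ∑ k ∈ J, χ (z - x k) • v k = v i
        rw [Finset.sum_eq_single_of_mem i hiJ]
        · rw [hχ5 _ hzn, one_smul]
        · intro k hk hki
          have h8 := hJs k hk i hiJ hki
          have h9 : 3 ≤ ‖z - x k‖ := by
            have : dist (x k) (x i) ≤ ‖z - x k‖ + ‖z - x i‖ := by
              rw [← dist_eq_norm, ← dist_eq_norm]
              exact dist_triangle_left _ _ _
            linarith
          rw [hχ6 _ h9, zero_smul]
      have h1 := hv2 i z (wall_mono ((min_le_right _ _).trans (min_le_left _ _)) hz)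
      show min (κ / 2) (min b 1) ≤ ‖G' z - S z‖
      rw [hSz]
      exact ((min_le_right _ _).trans (min_le_left _ _)).trans h1

theorem wall (hv : S_VEC) : S_WALL := by
  intro m n N hm
  have h : ∀ j, PP m n N j := by
    intro j
    induction j with
    | zero =>
      refine ⟨1, 1, 1, one_pos, le_rfl, one_pos, ?_⟩
      intro I _ col x ι _ G hG hG1
      refine ⟨G, hG, hG1, fun z => ?_, fun i hi => absurd hi (Nat.not_lt_zero _)⟩
      rw [sub_self, norm_zero, pow_zero, sub_self]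
    | succ j ih => exact pp_step hv hm j ih
  obtain ⟨κ, δ1, Λ, hκ, hκ1, hδ1, H⟩ := h N
  refine ⟨κ, δ1, Λ, hκ, hκ1, hδ1, ?_⟩
  intro I _ col x ι hsep G hG hG1
  obtain ⟨G', h1, h2, h3, h4⟩ := H I col x ι hsep G hG hG1
  refine ⟨G', h1, h2, fun z => (h3 z).trans ?_, fun i => h4 i (col i).isLt⟩
  have : (0 : ℝ) < (1 / 2) ^ N := by positivity
  linarith

end Pool.Agent.Q216.BT
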